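import Pool.Agent.H75.ST.Stmt

/-! Transport of the decoding formulas by isomorphisms of whole structures. -/

set_option autoImplicit false

open Set Pool.Agent.TK

namespace Pool.Agent.ST

variable {C : Type} {c0 : C}

private lemma isoH_symm {h : Equiv.Perm ℕ} {M N : St C} (H : IsoH h M N) :
    IsoH h.symm N M := by
  refine ⟨?_, ?_⟩
  · intro u v
    rw [H.1 (h.symm u) (h.symm v)]
    simp
  · intro l
    rw [H.2 (l.map h.symm), List.map_map]
    have : (h : ℕ → ℕ) ∘ (h.symm : ℕ → ℕ) = id := by funext x; simp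
    rw [this, List.map_id]

private lemma isoH_conn {h : Equiv.Perm ℕ} {M N : St C} (H : IsoH h M N) {A : Set ℕ} {u v : ℕ}
    (hc : Conn M A u v) : Conn N (h '' A) (h u) (h v) := by
  obtain ⟨h1, h2⟩ := hc
  refine ⟨by simpa using h1, ?_⟩
  induction h2 with
  | refl => exact Relation.ReflTransGen.refl
  | tail hb hs ih =>
    refine ih.tail ⟨?_, ?_⟩
    · rw [← H.1]; exact hs.1
    · simpa using hs.2

private lemma sym_im (h : Equiv.Perm ℕ) (B : Set ℕ) : h.symm '' (h '' B) = B := by
  ext x; simp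

private lemma im_sym (h : Equiv.Perm ℕ) (B : Set ℕ) : h '' (h.symm '' B) = B := by
  ext x; simp

private lemma image_cp {h : Equiv.Perm ℕ} {M N : St C} (H : IsoH h M N) (A : Set ℕ) (v : ℕ) :
    h '' cp M A v = cp N (h '' A) (h v) := by
  ext x
  constructor
  · rintro ⟨y, hy, rfl⟩
    exact isoH_conn H hy
  · intro hx
    refine ⟨h.symm x, ?_, by simp⟩
    have h1 := isoH_conn (isoH_symm H) hx
    rw [sym_im] at h1
    change Conn M A v (h.symm x)
    simpa using h1

private lemma im_ball {h : Equiv.Perm ℕ} {M N : St C} (H : IsoH h M N) (B : Set ℕ) (x : ℕ) :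
    ∀ m, ball N (h '' B) (h x) m = h '' ball M B x m := by
  intro m
  induction m with
  | zero => simp [ball]
  | succ m ih =>
    simp only [ball, ih]
    rw [Set.image_union]
    congr 1
    ext u
    constructor
    · rintro ⟨hu, s, ⟨t, ht, rfl⟩, hE⟩
      refine ⟨h.symm u, ⟨?_, t, ht, ?_⟩, by simp⟩
      · intro huB
        exact hu ⟨_, huB, by simp⟩
      · rw [H.1]; simpa using hE
    · rintro ⟨y, ⟨hy, s, hs, hE⟩, rfl⟩
      refine ⟨by simpa using hy, h s, ⟨s, hs, rfl⟩, ?_⟩
      rw [← H.1]; exact hE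

private lemma off_im (hITR : ITR C c0) {h : Equiv.Perm ℕ} {N N' : St C} (H : IsoH h N N')
    {w w' : Set ℕ → Set ℕ} (hw : ∀ F : Set ℕ, F.Finite → w' (h '' F) = h '' w F)
    {F D : Set ℕ} (hO : Off N w F D) : Off N' w' (h '' F) (h '' D) := by
  refine ⟨hO.1.image _, (hITR h N N' H).1 F D hO.2.1, ?_⟩
  rw [hw F hO.1]
  intro he
  exact hO.2.2 (h.injective.image_injective he)

private lemma hw_symm {h : Equiv.Perm ℕ} {w w' : Set ℕ → Set ℕ}
    (hw : ∀ F : Set ℕ, F.Finite → w' (h '' F) = h '' w F) :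
    ∀ F : Set ℕ, F.Finite → w (h.symm '' F) = h.symm '' w' F := by
  intro F hF
  have h1 := hw (h.symm '' F) (hF.image _)
  rw [im_sym] at h1
  rw [h1, sym_im]

private lemma sm_im (hITR : ITR C c0) {h : Equiv.Perm ℕ} {N N' : St C} (H : IsoH h N N')
    (r : Rk) (D : Set ℕ) : Sm c0 r N' (h '' D) ↔ Sm c0 r N D := by
  constructor
  · intro h1
    have h2 := (hITR h.symm N' N (isoH_symm H)).2.2.2 r _ h1
    rwa [sym_im] at h2
  · exact (hITR h N N' H).2.2.2 r D

theorem pf_TRN {C : Type} {c0 : C} (hITR : ITR C c0) : TRN C c0 := by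
  intro h N N' _ _ H w w' _ hw
  refine ⟨?_, fun B x m => im_ball H B x m, ?_, ?_⟩
  · have hNb := (hITR h N N' H).2.1
    ext x
    constructor
    · intro hx
      refine ⟨h.symm x, ?_, by simp⟩
      intro A hA hxA
      have h1 := hx (h '' A) (hA.image _) ⟨_, hxA, by simp⟩
      rw [hw A hA, hNb] at h1
      obtain ⟨y, hy, hyx⟩ := h1
      rw [← hyx]
      simpa using hy
    · rintro ⟨y, hy, rfl⟩ A hA hyA
      have hA' : (h.symm '' A).Finite := hA.image _
      have h1 := hy (h.symm '' A) hA' ⟨_, hyA, by simp⟩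
      have h2 := hw (h.symm '' A) hA'
      rw [im_sym] at h2
      rw [h2, hNb]
      exact ⟨y, h1, rfl⟩
  · rintro r B x n i ⟨F, D, hO, hD, hN, hS⟩
    refine ⟨h '' F, h '' D, off_im hITR H hw hO, ?_, ?_, ?_⟩
    · rw [← image_cp H]
      exact Set.image_mono hD
    · rw [(hITR h N N' H).2.1, im_ball H, ← Set.image_union]
      exact Set.image_mono hN
    · rw [sm_im hITR H]
      exact hS
  · rintro r B i ⟨v, hv, ⟨F, D, hO, hD, hS⟩, hall⟩
    refine ⟨h v, by simpa using hv, ⟨h '' F, h '' D, off_im hITR H hw hO, ?_, ?_⟩, ?_⟩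
    · rw [← image_cp H]
      exact Set.image_mono hD
    · rw [sm_im hITR H]
      exact hS
    · intro F' D' hO' hD'
      have h1 := off_im hITR (isoH_symm H) (hw_symm hw) hO'
      have h2 : h.symm '' D' ⊆ cp N B v := by
        rw [← image_cp H] at hD'
        have := Set.image_mono (f := h.symm) hD'
        rwa [sym_im] at this
      have h3 := hall _ _ h1 h2
      have h4 := (sm_im hITR H (r (i + 1)) (h.symm '' D')).2 h3
      rwa [im_sym] at h4

end Pool.Agent.ST
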